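import Pool.Agent.V5helper19.QC.Stm

/-!
# Project QC (helper19): job AN1
-/

set_option autoImplicit false

open Filter Topology MeasureTheory

namespace Pool.Agent.V5helper6.QC

open V5helper19.QC

theorem re_lower (σ θ : ℝ) (ρ : ℂ) (hρ : ‖ρ‖ ≤ 1 / 4) :
    (1 / 2) * Real.exp (-(σ * θ ^ 2 / 2)) ≤ (Complex.exp (-(σ : ℂ) * (θ : ℂ) ^ 2 / 2 + ρ)).re := by
  have e1 : -(σ : ℂ) * (θ : ℂ) ^ 2 / 2 = ((-(σ * θ ^ 2 / 2) : ℝ) : ℂ) := by push_cast; ring
  rw [e1, Complex.exp_add, ← Complex.ofReal_exp, Complex.re_ofReal_mul]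
  have h1 : ‖Complex.exp ρ - 1‖ ≤ 2 * ‖ρ‖ := Complex.norm_exp_sub_one_le (by linarith)
  have h2 : |(Complex.exp ρ - 1).re| ≤ ‖Complex.exp ρ - 1‖ := Complex.abs_re_le_norm _
  rw [Complex.sub_re, Complex.one_re] at h2
  have h3 := (abs_le.1 h2).1
  nlinarith [Real.exp_pos (-(σ * θ ^ 2 / 2))]

theorem norm_upper (σ θ : ℝ) (ρ : ℂ) :
    ‖Complex.exp (-(σ : ℂ) * (θ : ℂ) ^ 2 / 2 + ρ)‖ ≤ Real.exp (-(σ * θ ^ 2 / 2) + ‖ρ‖) := by
  have e1 : -(σ : ℂ) * (θ : ℂ) ^ 2 / 2 = ((-(σ * θ ^ 2 / 2) : ℝ) : ℂ) := by push_cast; ring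
  rw [Complex.norm_exp, e1, Complex.add_re, Complex.ofReal_re]
  apply Real.exp_le_exp.2
  linarith [Complex.re_le_norm ρ]

theorem cos_lower (θ : ℝ) : 1 - Real.cos θ ≤ θ ^ 2 / 2 := by
  linarith [Real.one_sub_sq_div_two_le_cos (x := θ)]

theorem cos_upper (θ : ℝ) (h : |θ| ≤ Real.pi) : θ ^ 2 / 8 ≤ 1 - Real.cos θ := by
  have h1 := Real.cos_le_one_sub_mul_cos_sq h
  have h2 : (1 : ℝ) / 8 ≤ 2 / Real.pi ^ 2 := by
    rw [div_le_div_iff₀ (by norm_num) (by positivity)]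
    have := Real.pi_le_four
    have := Real.pi_pos
    nlinarith
  nlinarith [sq_nonneg θ]

theorem t_AN1 : S_AN1 := by
  intro c C K δ c' C' hc hC hK hδ hKδ hc' hC'
  have hpi := Real.pi_pos
  set A : ℝ := Real.exp (-(C / 2)) / 16 with hA
  have hA0 : 0 < A := by positivity
  set a : ℝ := 3 * c / 16 with ha
  have ha0 : 0 < a := by positivity
  set B : ℝ := Real.exp Real.pi / a * Real.sqrt (2 * Real.pi / a) with hB
  have hB0 : 0 < B := by positivity
  -- the choice of `T`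
  obtain ⟨T, hT1, hTB⟩ : ∃ T : ℝ, 1 ≤ T ∧ B * Real.exp (-(a * T ^ 2)) ≤ A / 6 := by
    have h1 : Tendsto (fun T : ℝ => B * Real.exp (-(a * T ^ 2))) atTop (𝓝 (B * 0)) := by
      apply Tendsto.const_mul
      apply Real.tendsto_exp_atBot.comp
      apply tendsto_neg_atTop_atBot.comp
      exact (tendsto_pow_atTop (by norm_num)).const_mul_atTop ha0
    rw [mul_zero] at h1
    have h2 := h1.eventually_le_const (show (0 : ℝ) < A / 6 by positivity)
    obtain ⟨T, hT⟩ := (h2.and (eventually_ge_atTop 1)).exists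
    exact ⟨T, hT.2, hT.1⟩
  have hT0 : 0 < T := by linarith
  -- the choice of `S`
  have hev : ∀ᶠ S : ℝ in atTop, 1 ≤ S ∧ T / S ^ 3 + K * T ^ 3 / S ≤ 1 / 4 ∧ T / S ≤ δ ∧
      C' * Real.pi ^ 3 / 3 * S ^ 13 ≤ A / 6 * Real.exp (c' * S) := by
    have e1 : Tendsto (fun S : ℝ => T / S ^ 3 + K * T ^ 3 / S) atTop (𝓝 (0 + 0)) := by
      apply Tendsto.add
      · exact tendsto_const_nhds.div_atTop (tendsto_pow_atTop (by norm_num))
      · exact tendsto_const_nhds.div_atTop tendsto_id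
    rw [add_zero] at e1
    have e2 : Tendsto (fun S : ℝ => T / S) atTop (𝓝 0) := tendsto_const_nhds.div_atTop tendsto_id
    have e3 := (isLittleO_pow_exp_pos_mul_atTop 13 hc').bound
      (show 0 < A / 6 / (C' * Real.pi ^ 3 / 3) by positivity)
    filter_upwards [eventually_ge_atTop 1, e1.eventually_le_const (show (0 : ℝ) < 1 / 4 by norm_num),
      e2.eventually_le_const hδ, e3] with S h1 h2 h3 h4
    refine ⟨h1, h2, h3, ?_⟩
    rw [Real.norm_of_nonneg (by positivity), Real.norm_of_nonneg (Real.exp_pos _).le,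
      div_mul_eq_mul_div, le_div_iff₀ (by positivity)] at h4
    linarith
  obtain ⟨S0, hS0⟩ := eventually_atTop.1 hev
  refine ⟨max 1 S0 ^ 2, by positivity, ?_⟩
  intro N σ ψ hN hσ1 hσ2 hψ hin hout
  -- `N = S ^ 2`
  have hN1 : 1 ≤ N := le_trans (by nlinarith [le_max_left 1 S0]) hN
  obtain ⟨S, hS, hSN⟩ : ∃ S : ℝ, max 1 S0 ≤ S ∧ N = S ^ 2 :=
    ⟨Real.sqrt N, Real.le_sqrt_of_sq_le hN, (Real.sq_sqrt (by linarith)).symm⟩
  obtain ⟨hS1, hS2, hS3, hS4⟩ := hS0 S ((le_max_right _ _).trans hS)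
  have hSpos : 0 < S := by linarith
  have hNpos : 0 < N := by linarith
  have hN3 : N ^ 3 = S ^ 6 := by rw [hSN]; ring
  -- the functions
  set ε₁ : ℝ := Real.exp Real.pi * Real.exp (-(a * T ^ 2)) with hε₁
  have hε0 : 0 < ε₁ := by positivity
  set Pc : ℝ := ε₁ / (a * S ^ 6) with hPc
  have hPc0 : 0 < Pc := by positivity
  set D : ℝ := C' * N ^ 2 * Real.exp (-(c' * N)) / 2 with hD
  have hD0 : 0 < D := by positivity
  set b : ℝ := a / 2 * S ^ 6 with hb
  have hb0 : 0 < b := by positivity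
  set m : ℝ := 1 / S ^ 3 with hm
  have hm0 : 0 < m := by positivity
  have hmpi : m ≤ Real.pi := by
    have : m ≤ 1 := by
      rw [hm, div_le_one (by positivity)]
      exact one_le_pow₀ hS1
    linarith [Real.pi_gt_three]
  have hTm : T / S ^ 3 ≤ δ / N := by
    rw [div_le_div_iff₀ (by positivity) hNpos, hSN]
    rw [div_le_iff₀ hSpos] at hS3
    calc T * S ^ 2 ≤ (δ * S) * S ^ 2 := mul_le_mul_of_nonneg_right hS3 (by positivity)
      _ = δ * S ^ 3 := by ring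
  have hone : ∀ θ : ℝ, 0 ≤ 1 - Real.cos θ := fun θ => by linarith [Real.cos_le_one θ]
  -- inner region
  have hinner : ∀ θ : ℝ, |θ| ≤ T / S ^ 3 → (1 / 2) * Real.exp (-(σ * θ ^ 2 / 2)) ≤ (ψ θ).re := by
    intro θ hθ
    obtain ⟨ρ, hρ1, hρ2⟩ := hin θ (hθ.trans hTm)
    rw [hρ1]
    apply re_lower
    refine hρ2.trans ?_
    have h1 : K * N ^ 4 * |θ| ^ 3 ≤ K * T ^ 3 / S := by
      calc K * N ^ 4 * |θ| ^ 3 ≤ K * N ^ 4 * (T / S ^ 3) ^ 3 := by
            apply mul_le_mul_of_nonneg_left _ (by positivity)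
            exact pow_le_pow_left₀ (abs_nonneg _) hθ 3
        _ = K * T ^ 3 / S := by
            rw [hSN]
            field_simp
    linarith
  have hA1 : ∀ θ : ℝ, |θ| ≤ Real.pi → 0 ≤ (ψ θ).re * (1 - Real.cos θ) +
      (Pc * Real.exp (-b * θ ^ 2) + D * θ ^ 2) := by
    intro θ hθ
    have hE : 0 ≤ Pc * Real.exp (-b * θ ^ 2) := by positivity
    have hE2 : 0 ≤ D * θ ^ 2 := by positivity
    have hlow : -(‖ψ θ‖ * (θ ^ 2 / 2)) ≤ (ψ θ).re * (1 - Real.cos θ) := by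
      have h1 : -‖ψ θ‖ ≤ (ψ θ).re := (abs_le.1 (Complex.abs_re_le_norm (ψ θ))).1
      have h2 := cos_lower θ
      have h3 := hone θ
      have h4 := norm_nonneg (ψ θ)
      have h5 : -‖ψ θ‖ * (1 - Real.cos θ) ≤ (ψ θ).re * (1 - Real.cos θ) :=
        mul_le_mul_of_nonneg_right h1 h3
      have h6 : ‖ψ θ‖ * (1 - Real.cos θ) ≤ ‖ψ θ‖ * (θ ^ 2 / 2) := mul_le_mul_of_nonneg_left h2 h4
      linarith
    rcases le_or_gt |θ| (T / S ^ 3) with h | h
    · have h1 := hinner θ h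
      have h2 : 0 ≤ (ψ θ).re := le_trans (by positivity) h1
      have h3 := mul_nonneg h2 (hone θ)
      linarith
    · rcases le_or_gt |θ| (δ / N) with h' | h'
      · obtain ⟨ρ, hρ1, hρ2⟩ := hin θ h'
        have h1 : ‖ψ θ‖ ≤ Real.exp (-(σ * θ ^ 2 / 2) + ‖ρ‖) := by
          rw [hρ1]; exact norm_upper σ θ ρ
        have h2 : K * N ^ 4 * |θ| ^ 3 ≤ c / 8 * (N ^ 3 * θ ^ 2) := by
          rw [le_div_iff₀ hNpos] at h'
          have e1 : K * N ^ 4 * |θ| ^ 3 = K * (|θ| * N) * (N ^ 3 * |θ| ^ 2) := by ring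
          rw [e1, sq_abs]
          apply mul_le_mul_of_nonneg_right _ (by positivity)
          calc K * (|θ| * N) ≤ K * δ := mul_le_mul_of_nonneg_left h' hK.le
            _ ≤ c / 8 := hKδ
        have h3 : c * N ^ 3 * θ ^ 2 ≤ σ * θ ^ 2 := mul_le_mul_of_nonneg_right hσ1 (sq_nonneg θ)
        have h4 : T ^ 2 ≤ S ^ 6 * θ ^ 2 := by
          rw [div_lt_iff₀ (by positivity)] at h
          calc T ^ 2 ≤ (|θ| * S ^ 3) ^ 2 := pow_le_pow_left₀ hT0.le h.le 2
            _ = S ^ 6 * θ ^ 2 := by rw [mul_pow, sq_abs]; ring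
        have h5 : -(σ * θ ^ 2 / 2) + ‖ρ‖ ≤ Real.pi + -(a * T ^ 2) + -(a * (S ^ 6 * θ ^ 2)) := by
          rw [hN3] at h2 h3
          have h6 : a * T ^ 2 ≤ a * (S ^ 6 * θ ^ 2) := mul_le_mul_of_nonneg_left h4 ha0.le
          have h7 : a * (S ^ 6 * θ ^ 2) = 3 / 16 * (c * (S ^ 6 * θ ^ 2)) := by rw [ha]; ring
          have h8 : c / 8 * (S ^ 6 * θ ^ 2) = 1 / 8 * (c * (S ^ 6 * θ ^ 2)) := by ring
          have h9 : c * S ^ 6 * θ ^ 2 = c * (S ^ 6 * θ ^ 2) := by ring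
          rw [h8] at h2
          rw [h9] at h3
          rw [h7] at h6 ⊢
          linarith only [hρ2, h2, h3, h6, hθ]
        have h6 : ‖ψ θ‖ ≤ ε₁ * Real.exp (-(a * (S ^ 6 * θ ^ 2))) := by
          refine h1.trans ((Real.exp_le_exp.2 h5).trans (le_of_eq ?_))
          rw [Real.exp_add, Real.exp_add]
        have h7 : ‖ψ θ‖ * (θ ^ 2 / 2) ≤ Pc * Real.exp (-b * θ ^ 2) := by
          set x : ℝ := a / 2 * S ^ 6 * θ ^ 2 with hx
          have h8 : θ ^ 2 / 2 = x / (a * S ^ 6) := by rw [hx]; field_simp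
          have h9 : x ≤ Real.exp x := by linarith [Real.add_one_le_exp x]
          calc ‖ψ θ‖ * (θ ^ 2 / 2) ≤ (ε₁ * Real.exp (-(a * (S ^ 6 * θ ^ 2)))) * (θ ^ 2 / 2) :=
                mul_le_mul_of_nonneg_right h6 (by positivity)
            _ = ε₁ / (a * S ^ 6) * (x * Real.exp (-(2 * x))) := by
                rw [h8, show a * (S ^ 6 * θ ^ 2) = 2 * x by rw [hx]; ring]
                ring
            _ ≤ ε₁ / (a * S ^ 6) * (Real.exp x * Real.exp (-(2 * x))) := by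
                apply mul_le_mul_of_nonneg_left _ hPc0.le
                exact mul_le_mul_of_nonneg_right h9 (Real.exp_pos _).le
            _ = Pc * Real.exp (-b * θ ^ 2) := by
                rw [← Real.exp_add, hPc]
                congr 2
                rw [hx, hb]; ring
        linarith
      · have h1 := hout θ h'.le hθ
        have h2 : ‖ψ θ‖ * (θ ^ 2 / 2) ≤ D * θ ^ 2 := by
          calc ‖ψ θ‖ * (θ ^ 2 / 2) ≤ (C' * N ^ 2 * Real.exp (-(c' * N))) * (θ ^ 2 / 2) :=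
                mul_le_mul_of_nonneg_right h1 (by positivity)
            _ = D * θ ^ 2 := by rw [hD]; ring
        linarith
  have hA2 : ∀ θ : ℝ, |θ| ≤ m → A * θ ^ 2 ≤ (ψ θ).re * (1 - Real.cos θ) +
      (Pc * Real.exp (-b * θ ^ 2) + D * θ ^ 2) := by
    intro θ hθ
    have hE : 0 ≤ Pc * Real.exp (-b * θ ^ 2) := by positivity
    have hE2 : 0 ≤ D * θ ^ 2 := by positivity
    have h1 := hinner θ (hθ.trans (by
      rw [hm]
      exact div_le_div_of_nonneg_right hT1 (by positivity)))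
    have h2 : σ * θ ^ 2 ≤ C := by
      have h3 : θ ^ 2 ≤ 1 / S ^ 6 := by
        calc θ ^ 2 = |θ| ^ 2 := (sq_abs θ).symm
          _ ≤ m ^ 2 := pow_le_pow_left₀ (abs_nonneg _) hθ 2
          _ = 1 / S ^ 6 := by rw [hm]; field_simp
      calc σ * θ ^ 2 ≤ (C * N ^ 3) * θ ^ 2 := mul_le_mul_of_nonneg_right hσ2 (sq_nonneg θ)
        _ ≤ (C * N ^ 3) * (1 / S ^ 6) := mul_le_mul_of_nonneg_left h3 (by positivity)
        _ = C := by rw [hN3]; field_simp
    have h4 : Real.exp (-(C / 2)) ≤ Real.exp (-(σ * θ ^ 2 / 2)) := Real.exp_le_exp.2 (by linarith)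
    have h5 : Real.exp (-(C / 2)) / 2 ≤ (ψ θ).re := by linarith
    have h6 := cos_upper θ (hθ.trans hmpi)
    have h7 : Real.exp (-(C / 2)) / 2 * (θ ^ 2 / 8) ≤ (ψ θ).re * (1 - Real.cos θ) :=
      mul_le_mul h5 h6 (by positivity) (le_trans (by positivity) h5)
    have h8 : A * θ ^ 2 = Real.exp (-(C / 2)) / 2 * (θ ^ 2 / 8) := by rw [hA]; ring
    linarith
  -- the integral
  have hg : Continuous fun θ : ℝ => (ψ θ).re * (1 - Real.cos θ) :=
    (Complex.continuous_re.comp hψ).mul (continuous_const.sub Real.continuous_cos)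
  have hEc : Continuous fun θ : ℝ => Pc * Real.exp (-b * θ ^ 2) + D * θ ^ 2 := by fun_prop
  have hgE : Continuous fun θ : ℝ => (ψ θ).re * (1 - Real.cos θ) +
      (Pc * Real.exp (-b * θ ^ 2) + D * θ ^ 2) := hg.add hEc
  have hre : (∫ θ in (-Real.pi)..Real.pi, ψ θ * (1 - Complex.cos (θ : ℂ))).re =
      ∫ θ in (-Real.pi)..Real.pi, (ψ θ).re * (1 - Real.cos θ) := by
    have hcc : Continuous fun θ : ℝ => ψ θ * (1 - Complex.cos (θ : ℂ)) :=
      hψ.mul (continuous_const.sub (Complex.continuous_cos.comp Complex.continuous_ofReal))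
    have h1 := Complex.reCLM.intervalIntegral_comp_comm (hcc.intervalIntegrable (μ := volume) (-Real.pi) Real.pi)
    rw [Complex.reCLM_apply] at h1
    rw [← h1]
    apply intervalIntegral.integral_congr
    intro θ _
    show (ψ θ * (1 - Complex.cos (θ : ℂ))).re = _
    rw [← Complex.ofReal_cos, ← Complex.ofReal_one, ← Complex.ofReal_sub, mul_comm, Complex.re_ofReal_mul,
      mul_comm]
  rw [hre]
  have hsum : ∫ θ in (-Real.pi)..Real.pi, ((ψ θ).re * (1 - Real.cos θ) +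
      (Pc * Real.exp (-b * θ ^ 2) + D * θ ^ 2)) =
      (∫ θ in (-Real.pi)..Real.pi, (ψ θ).re * (1 - Real.cos θ)) +
      ∫ θ in (-Real.pi)..Real.pi, (Pc * Real.exp (-b * θ ^ 2) + D * θ ^ 2) :=
    intervalIntegral.integral_add (hg.intervalIntegrable _ _) (hEc.intervalIntegrable _ _)
  have hlow : A * (2 / 3 * m ^ 3) ≤ ∫ θ in (-Real.pi)..Real.pi, ((ψ θ).re * (1 - Real.cos θ) +
      (Pc * Real.exp (-b * θ ^ 2) + D * θ ^ 2)) := by
    rw [← intervalIntegral.integral_add_adjacent_intervals (b := -m) (hgE.intervalIntegrable _ _)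
      (hgE.intervalIntegrable _ _),
      ← intervalIntegral.integral_add_adjacent_intervals (a := -m) (b := m) (hgE.intervalIntegrable _ _)
      (hgE.intervalIntegrable _ _)]
    have i1 : 0 ≤ ∫ θ in (-Real.pi)..(-m), ((ψ θ).re * (1 - Real.cos θ) +
        (Pc * Real.exp (-b * θ ^ 2) + D * θ ^ 2)) := by
      apply intervalIntegral.integral_nonneg (by linarith)
      intro θ hθ
      exact hA1 θ (abs_le.2 ⟨hθ.1, by linarith [hθ.2]⟩)
    have i3 : 0 ≤ ∫ θ in m..Real.pi, ((ψ θ).re * (1 - Real.cos θ) +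
        (Pc * Real.exp (-b * θ ^ 2) + D * θ ^ 2)) := by
      apply intervalIntegral.integral_nonneg (by linarith)
      intro θ hθ
      exact hA1 θ (abs_le.2 ⟨by linarith [hθ.1], hθ.2⟩)
    have i2 : A * (2 / 3 * m ^ 3) ≤ ∫ θ in (-m)..m, ((ψ θ).re * (1 - Real.cos θ) +
        (Pc * Real.exp (-b * θ ^ 2) + D * θ ^ 2)) := by
      have e1 : ∫ θ in (-m)..m, A * θ ^ 2 = A * (2 / 3 * m ^ 3) := by
        rw [intervalIntegral.integral_const_mul, integral_pow]
        push_cast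
        ring
      rw [← e1]
      apply intervalIntegral.integral_mono_on (by linarith)
      · exact (by fun_prop : Continuous fun θ : ℝ => A * θ ^ 2).intervalIntegrable _ _
      · exact hgE.intervalIntegrable _ _
      · intro θ hθ
        exact hA2 θ (abs_le.2 ⟨hθ.1, hθ.2⟩)
    linarith
  have hupp : ∫ θ in (-Real.pi)..Real.pi, (Pc * Real.exp (-b * θ ^ 2) + D * θ ^ 2) ≤
      Pc * Real.sqrt (Real.pi / b) + D * (2 / 3 * Real.pi ^ 3) := by
    have c1 : Continuous fun θ : ℝ => Pc * Real.exp (-b * θ ^ 2) := by fun_prop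
    have c2 : Continuous fun θ : ℝ => D * θ ^ 2 := by fun_prop
    rw [intervalIntegral.integral_add (c1.intervalIntegrable _ _) (c2.intervalIntegrable _ _),
      intervalIntegral.integral_const_mul, intervalIntegral.integral_const_mul, integral_pow]
    have h1 : ∫ θ in (-Real.pi)..Real.pi, Real.exp (-b * θ ^ 2) ≤ Real.sqrt (Real.pi / b) := by
      rw [← integral_gaussian b, intervalIntegral.integral_of_le (by linarith)]
      apply setIntegral_le_integral (integrable_exp_neg_mul_sq hb0)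
      exact Filter.Eventually.of_forall (fun θ => (Real.exp_pos _).le)
    have h2 := mul_le_mul_of_nonneg_left h1 hPc0.le
    have h3 : D * ((Real.pi ^ (2 + 1) - (-Real.pi) ^ (2 + 1)) / ((2 : ℕ) + 1 : ℝ)) = D * (2 / 3 * Real.pi ^ 3) := by
      push_cast
      ring
    rw [h3]
    linarith
  have hsq : Real.sqrt (Real.pi / b) = Real.sqrt (2 * Real.pi / a) / S ^ 3 := by
    have e1 : Real.pi / b = (2 * Real.pi / a) / (S ^ 3) ^ 2 := by
      rw [hb]; field_simp
    rw [e1, Real.sqrt_div (by positivity), Real.sqrt_sq (by positivity)]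
  have hm3 : m ^ 3 = 1 / S ^ 9 := by rw [hm]; field_simp
  have f1 : Pc * Real.sqrt (Real.pi / b) ≤ A / 6 * (1 / S ^ 9) := by
    have e1 : Pc * Real.sqrt (Real.pi / b) = (B * Real.exp (-(a * T ^ 2))) * (1 / S ^ 9) := by
      rw [hsq, hPc, hB, hε₁]
      field_simp
    rw [e1]
    exact mul_le_mul_of_nonneg_right hTB (by positivity)
  have f2 : D * (2 / 3 * Real.pi ^ 3) ≤ A / 6 * (1 / S ^ 9) := by
    have e1 : D * (2 / 3 * Real.pi ^ 3) = (C' * Real.pi ^ 3 / 3 * S ^ 13) * Real.exp (-(c' * S ^ 2)) * (1 / S ^ 9) := by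
      rw [hD, hSN]
      field_simp
    rw [e1]
    apply mul_le_mul_of_nonneg_right _ (by positivity)
    calc (C' * Real.pi ^ 3 / 3 * S ^ 13) * Real.exp (-(c' * S ^ 2))
        ≤ (A / 6 * Real.exp (c' * S)) * Real.exp (-(c' * S ^ 2)) :=
          mul_le_mul_of_nonneg_right hS4 (Real.exp_pos _).le
      _ = A / 6 * Real.exp (c' * S + -(c' * S ^ 2)) := by rw [mul_assoc, ← Real.exp_add]
      _ ≤ A / 6 * 1 := by
          apply mul_le_mul_of_nonneg_left _ (by positivity)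
          rw [Real.exp_le_one_iff]
          have h1 : S ≤ S ^ 2 := by nlinarith
          have h2 : c' * S ≤ c' * S ^ 2 := mul_le_mul_of_nonneg_left h1 hc'.le
          linarith
      _ = A / 6 := by ring
  have f3 : 0 < A / 3 * (1 / S ^ 9) := by positivity
  rw [hsum, hm3] at hlow
  nlinarith

end Pool.Agent.V5helper6.QC
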